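import Pool.Agent.Q240.CD.Stm2

/-!
# Project CD: the point masses `2 m_j S(√g_j)²` satisfy `Fam`
-/

set_option autoImplicit false

open Polynomial Filter Topology Finset MeasureTheory

namespace Pool.Agent.Q128.CD

open Pool.Agent.Q240.CD

theorem young (ε : ℝ) (hε : 0 < ε) (x : ℝ) (hx : 0 < x) :
    x ^ (7 / 8 : ℝ) ≤ ε * x + (ε⁻¹) ^ 7 := by
  have hε7 : 0 < (ε⁻¹) ^ 7 := by positivity
  rcases le_total ((ε⁻¹) ^ 8) x with h | h
  · have h1 : ε⁻¹ ≤ x ^ (1 / 8 : ℝ) := by
      have h2 : ((ε⁻¹) ^ 8) ^ (1 / 8 : ℝ) ≤ x ^ (1 / 8 : ℝ) :=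
        Real.rpow_le_rpow (by positivity) h (by norm_num)
      have h3 : ((ε⁻¹) ^ 8) ^ (1 / 8 : ℝ) = ε⁻¹ := by
        rw [← Real.rpow_natCast, ← Real.rpow_mul (by positivity)]
        norm_num
      rwa [h3] at h2
    have h4 : x ^ (7 / 8 : ℝ) * x ^ (1 / 8 : ℝ) = x := by
      rw [← Real.rpow_add hx]
      norm_num
    have h5 : 0 < x ^ (7 / 8 : ℝ) := Real.rpow_pos_of_pos hx _
    have h6 : x ^ (7 / 8 : ℝ) * ε⁻¹ ≤ x := by
      calc x ^ (7 / 8 : ℝ) * ε⁻¹ ≤ x ^ (7 / 8 : ℝ) * x ^ (1 / 8 : ℝ) :=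
            mul_le_mul_of_nonneg_left h1 h5.le
        _ = x := h4
    have h7 : x ^ (7 / 8 : ℝ) ≤ ε * x := by
      have := mul_le_mul_of_nonneg_left h6 hε.le
      calc x ^ (7 / 8 : ℝ) = ε * (x ^ (7 / 8 : ℝ) * ε⁻¹) := by field_simp
        _ ≤ ε * x := this
    linarith
  · have h2 : x ^ (7 / 8 : ℝ) ≤ ((ε⁻¹) ^ 8) ^ (7 / 8 : ℝ) :=
      Real.rpow_le_rpow hx.le h (by norm_num)
    have h3 : ((ε⁻¹) ^ 8) ^ (7 / 8 : ℝ) = (ε⁻¹) ^ 7 := by
      rw [← Real.rpow_natCast, ← Real.rpow_mul (by positivity), ← Real.rpow_natCast]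
      norm_num
    rw [h3] at h2
    have : 0 < ε * x := by positivity
    linarith

/-- powers against the exponential function -/
theorem pow_exp (c : ℝ) (hc : 0 < c) (d : ℕ) : ∃ B : ℝ, 0 < B ∧ ∀ x : ℝ, 0 ≤ x →
    (1 + x) ^ d ≤ B * Real.exp (c * x) := by
  obtain ⟨ε, hε⟩ : ∃ ε, ε = min 1 (c / (d + 1)) := ⟨_, rfl⟩
  have hε0 : 0 < ε := by
    rw [hε]
    exact lt_min one_pos (by positivity)
  have hε1 : ε ≤ 1 := by rw [hε]; exact min_le_left _ _
  have hεd : d * ε ≤ c := by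
    have h1 : ε ≤ c / (d + 1) := by rw [hε]; exact min_le_right _ _
    have h2 : (d + 1 : ℝ) * ε ≤ c := by
      have := mul_le_mul_of_nonneg_left h1 (by positivity : (0 : ℝ) ≤ d + 1)
      have e : (d + 1 : ℝ) * (c / (d + 1)) = c := by field_simp
      linarith
    nlinarith
  refine ⟨(ε⁻¹) ^ d, by positivity, fun x hx => ?_⟩
  have h1 : 1 + x ≤ ε⁻¹ * Real.exp (ε * x) := by
    have h2 := Real.add_one_le_exp (ε * x)
    have h3 : ε * (1 + x) ≤ Real.exp (ε * x) := by nlinarith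
    calc 1 + x = ε⁻¹ * (ε * (1 + x)) := by field_simp
      _ ≤ ε⁻¹ * Real.exp (ε * x) := mul_le_mul_of_nonneg_left h3 (by positivity)
  calc (1 + x) ^ d ≤ (ε⁻¹ * Real.exp (ε * x)) ^ d := pow_le_pow_left₀ (by linarith) h1 d
    _ = (ε⁻¹) ^ d * Real.exp (d * ε * x) := by
        rw [mul_pow, ← Real.exp_nat_mul]
        congr 2
        ring
    _ ≤ (ε⁻¹) ^ d * Real.exp (c * x) := by
        refine mul_le_mul_of_nonneg_left ?_ (by positivity)
        exact Real.exp_le_exp.2 (mul_le_mul_of_nonneg_right hεd hx)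

theorem famZ (h1 : S_SpB) (h2 : S_Inty) (h3 : S_LimSum) (h4 : S_LimS) (h5 : S_Mj) : S_FamZ := by
  intro g m hg hg0 hm hsum n κ hκ hn hdfn
  have hgp : ∀ j, 0 < g j := fun j => hg0.trans_le (hg.monotone (Nat.zero_le j))
  have hmp : ∀ j, 0 < m j := fun j => one_pos.trans_le (hm j)
  have hg78 : ∀ j, 0 < g j ^ (7 / 8 : ℝ) := fun j => Real.rpow_pos_of_pos (hgp j) _
  have hck : 0 < ck κ := by
    unfold ck
    positivity
  obtain ⟨c, hc⟩ : ∃ c, c = 2 * ck κ := ⟨_, rfl⟩
  have hc0 : 0 < c := by rw [hc]; positivity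
  -- sums
  have hs78 : Summable fun j => 1 / g j ^ (7 / 8 : ℝ) := by
    refine Summable.of_nonneg_of_le (fun j => (div_pos one_pos (hg78 j)).le) (fun j => ?_) hsum
    exact div_le_div_of_nonneg_right (hm j) (hg78 j).le
  have hdiv : ∀ j, m j / g j ≤ (1 / g 0 ^ (1 / 8 : ℝ)) * (m j / g j ^ (7 / 8 : ℝ)) := by
    intro j
    have e : g j ^ (7 / 8 : ℝ) * g j ^ (1 / 8 : ℝ) = g j := by
      rw [← Real.rpow_add (hgp j)]
      norm_num
    have h6 : g 0 ^ (1 / 8 : ℝ) ≤ g j ^ (1 / 8 : ℝ) :=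
      Real.rpow_le_rpow hg0.le (hg.monotone (Nat.zero_le j)) (by norm_num)
    have h7 : 0 < g 0 ^ (1 / 8 : ℝ) := Real.rpow_pos_of_pos hg0 _
    have h8 := hg78 j
    rw [div_mul_div_comm, one_mul]
    refine div_le_div_of_nonneg_left (hmp j).le (by positivity) ?_
    calc g 0 ^ (1 / 8 : ℝ) * g j ^ (7 / 8 : ℝ) ≤ g j ^ (1 / 8 : ℝ) * g j ^ (7 / 8 : ℝ) :=
          mul_le_mul_of_nonneg_right h6 h8.le
      _ = g j := by rw [mul_comm, e]
  have hmg : Summable fun j => m j / g j :=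
    Summable.of_nonneg_of_le (fun j => (div_pos (hmp j) (hgp j)).le) hdiv (hsum.mul_left _)
  -- a general comparison
  have hcmp : ∀ F : ℕ → ℝ, (∀ j, 0 ≤ F j) → (∃ B : ℝ, ∀ j, F j * g j ^ (7 / 8 : ℝ) ≤ B) →
      Summable fun j => 2 * m j * F j := by
    rintro F hF ⟨B, hB⟩
    refine Summable.of_nonneg_of_le (fun j => mul_nonneg (by linarith [hmp j]) (hF j)) (fun j => ?_)
      (hsum.mul_left (2 * B))
    have h6 := hB j
    have h7 := hg78 j
    have h8 : F j ≤ B / g j ^ (7 / 8 : ℝ) := by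
      rw [le_div_iff₀ h7]
      exact h6
    calc 2 * m j * F j ≤ 2 * m j * (B / g j ^ (7 / 8 : ℝ)) :=
          mul_le_mul_of_nonneg_left h8 (by linarith [hmp j])
      _ = 2 * B * (m j / g j ^ (7 / 8 : ℝ)) := by ring
  have hnorm : ∀ j, ‖((Real.sqrt (g j) : ℝ) : ℂ)‖ = Real.sqrt (g j) := fun j => by
    rw [Complex.norm_real, Real.norm_eq_abs, abs_of_nonneg (Real.sqrt_nonneg _)]
  have him : ∀ j, |((Real.sqrt (g j) : ℝ) : ℂ).im| ≤ 1 / 2 := fun j => by
    rw [Complex.ofReal_im, abs_zero]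
    norm_num
  have hsq : ∀ j, Real.sqrt (g j) ^ 2 = g j := fun j => Real.sq_sqrt (hgp j).le
  have hge : ∀ j, g j ≤ (1 + Real.sqrt (g j)) ^ 2 := fun j => by
    have := hsq j
    nlinarith [Real.sqrt_nonneg (g j)]
  have hβsum : Summable fun j => 2 * m j / (1 + ‖((Real.sqrt (g j) : ℝ) : ℂ)‖) ^ 2 := by
    refine Summable.of_nonneg_of_le (fun j => ?_) (fun j => ?_) (hmg.mul_left 2)
    · have := hmp j
      positivity
    · rw [hnorm, ← mul_div_assoc]
      exact div_le_div_of_nonneg_left (by linarith [hmp j]) (hgp j) (hge j)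
  -- the limits
  have hlimS : ∀ j, Tendsto (fun a => Sr a (n a) (Real.sqrt (g j)) ^ 2) atTop
      (𝓝 (Real.exp (-(2 * ck κ * g j)))) := by
    intro j
    have h6 := (tendstoLocallyUniformlyOn_univ.2 (h4 n κ hκ hn)).tendsto_at
      (Set.mem_univ ((Real.sqrt (g j) : ℝ) : ℂ))
    have h7 : ∀ a, Sp a (n a) ((Real.sqrt (g j) : ℝ) : ℂ) = ((Sr a (n a) (Real.sqrt (g j)) : ℝ) : ℂ) :=
      fun a => (h1 a (n a)).2.2.2.1 _
    simp only [h7] at h6
    have h8 : Complex.exp (-(ck κ * ((Real.sqrt (g j) : ℝ) : ℂ) ^ 2)) =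
        ((Real.exp (-(ck κ * g j)) : ℝ) : ℂ) := by
      rw [← Complex.ofReal_pow, hsq j]
      push_cast
      rfl
    rw [h8] at h6
    have h9 : Tendsto (fun a => Sr a (n a) (Real.sqrt (g j))) atTop
        (𝓝 (Real.exp (-(ck κ * g j)))) :=
      (Complex.continuous_re.tendsto _).comp h6
    have h10 := h9.pow 2
    have h11 : Real.exp (-(ck κ * g j)) ^ 2 = Real.exp (-(2 * ck κ * g j)) := by
      rw [← Real.exp_nat_mul]
      congr 1
      push_cast
      ring
    rwa [h11] at h10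
  refine ⟨?_, ?_, ?_, ?_, ?_, ?_, ?_, ?_⟩
  · -- `pm`
    filter_upwards [hdfn, eventually_gt_atTop 0] with a ha ha0
    refine ⟨hg, hg0, fun j => ?_, ?_, ha⟩
    · have := hmp j
      positivity
    · obtain ⟨⟨C, hC, hCb⟩, -⟩ := h2 a (n a) ha0
      have h6 : ∀ j, Sr a (n a) (Real.sqrt (g j)) ^ 2 * (1 + g j) ^ (2 * n a) ≤ C / g j := by
        intro j
        have h7 := hCb ((Real.sqrt (g j) : ℝ) : ℂ) (him j)
        rw [(h1 a (n a)).2.2.2.1, Complex.norm_real, Real.norm_eq_abs, sq_abs, hnorm] at h7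
        have h8 : (1 + g j) ^ (2 * n a) ≤ (1 + Real.sqrt (g j)) ^ (4 * n a) := by
          have h9 : 1 + g j ≤ (1 + Real.sqrt (g j)) ^ 2 := by
            have := hsq j
            nlinarith [Real.sqrt_nonneg (g j)]
          calc (1 + g j) ^ (2 * n a) ≤ ((1 + Real.sqrt (g j)) ^ 2) ^ (2 * n a) :=
                pow_le_pow_left₀ (by linarith [hgp j]) h9 _
            _ = (1 + Real.sqrt (g j)) ^ (4 * n a) := by
                rw [← pow_mul]
                congr 1
                ring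
        have hs0 := Real.sqrt_nonneg (g j)
        calc Sr a (n a) (Real.sqrt (g j)) ^ 2 * (1 + g j) ^ (2 * n a)
            ≤ C / (1 + Real.sqrt (g j)) ^ (4 * n a + 2) * (1 + Real.sqrt (g j)) ^ (4 * n a) :=
              mul_le_mul h7 h8 (by have := hgp j; positivity) (by positivity)
          _ = C / (1 + Real.sqrt (g j)) ^ 2 := by
              rw [pow_add]
              field_simp
          _ ≤ C / g j := div_le_div_of_nonneg_left hC.le (hgp j) (hge j)
      refine Summable.of_nonneg_of_le (fun j => ?_) (fun j => ?_) (hmg.mul_left (2 * C))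
      · have := hmp j
        have := hgp j
        positivity
      · calc 2 * m j * Sr a (n a) (Real.sqrt (g j)) ^ 2 * (1 + g j) ^ (2 * n a)
            = 2 * m j * (Sr a (n a) (Real.sqrt (g j)) ^ 2 * (1 + g j) ^ (2 * n a)) := by ring
          _ ≤ 2 * m j * (C / g j) := mul_le_mul_of_nonneg_left (h6 j) (by linarith [hmp j])
          _ = 2 * C * (m j / g j) := by ring
  · -- `top`
    rw [← tendsto_natCast_atTop_iff (R := ℝ)]
    have h6 : Tendsto (fun a : ℝ => (n a : ℝ) / a ^ 2 * a ^ 2) atTop atTop :=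
      Tendsto.pos_mul_atTop hκ hn (tendsto_pow_atTop (by norm_num))
    refine h6.congr' ?_
    filter_upwards [eventually_gt_atTop 0] with a ha
    field_simp
  · -- `gsum`
    refine Summable.of_nonneg_of_le (fun j => (div_pos one_pos (hgp j)).le) (fun j => ?_) hmg
    exact div_le_div_of_nonneg_right (hm j) (hgp j).le
  · -- `mpos`
    intro j
    have := hmp j
    positivity
  · -- `msum`
    intro d
    have h6 := hcmp (fun j => Real.exp (-(2 * ck κ * g j)) * (1 + g j) ^ d)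
      (fun j => by have := hgp j; positivity) ?_
    · refine h6.congr fun j => ?_
      ring
    · obtain ⟨B, hB, hBb⟩ := pow_exp c hc0 (d + 1)
      refine ⟨B, fun j => ?_⟩
      have h7 := hgp j
      have h8 : g j ^ (7 / 8 : ℝ) ≤ 1 + g j := by
        have := young 1 one_pos (g j) h7
        simp only [inv_one, one_pow, one_mul] at this
        linarith
      calc Real.exp (-(2 * ck κ * g j)) * (1 + g j) ^ d * g j ^ (7 / 8 : ℝ)
          ≤ Real.exp (-(2 * ck κ * g j)) * (1 + g j) ^ d * (1 + g j) :=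
            mul_le_mul_of_nonneg_left h8 (by positivity)
        _ = Real.exp (-(2 * ck κ * g j)) * (1 + g j) ^ (d + 1) := by ring
        _ ≤ Real.exp (-(2 * ck κ * g j)) * (B * Real.exp (c * g j)) :=
            mul_le_mul_of_nonneg_left (hBb (g j) h7.le) (by positivity)
        _ = B * (Real.exp (-(2 * ck κ * g j)) * Real.exp (c * g j)) := by ring
        _ = B := by
            rw [← Real.exp_add, hc]
            simp
  · -- `maj`
    obtain ⟨C, hC, hCb⟩ := h5 g hgp hs78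
    have h6 := hcmp (fun j => Real.exp (-(2 * ck κ * g j)) * mj g j (g j) ^ 2)
      (fun j => by positivity) ?_
    · refine h6.congr fun j => ?_
      ring
    · obtain ⟨ε, hε⟩ : ∃ ε, ε = c / (2 * C + 1) := ⟨_, rfl⟩
      have hε0 : 0 < ε := by rw [hε]; positivity
      refine ⟨Real.exp ((2 * C + 1) * (ε⁻¹) ^ 7), fun j => ?_⟩
      have h7 := hgp j
      have h8 := hg78 j
      have h9 : mj g j (g j) ^ 2 ≤ Real.exp (2 * C * g j ^ (7 / 8 : ℝ)) := by
        have h10 : 0 ≤ mj g j (g j) := by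
          unfold mj
          exact Finset.prod_nonneg fun i _ => zero_le_one.trans (le_max_left _ _)
        calc mj g j (g j) ^ 2 ≤ Real.exp (C * g j ^ (7 / 8 : ℝ)) ^ 2 :=
              pow_le_pow_left₀ h10 (hCb j (g j) h7.le) 2
          _ = Real.exp (2 * C * g j ^ (7 / 8 : ℝ)) := by
              rw [← Real.exp_nat_mul]
              congr 1
              push_cast
              ring
      have h10 : g j ^ (7 / 8 : ℝ) ≤ Real.exp (g j ^ (7 / 8 : ℝ)) := by
        have := Real.add_one_le_exp (g j ^ (7 / 8 : ℝ))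
        linarith
      calc Real.exp (-(2 * ck κ * g j)) * mj g j (g j) ^ 2 * g j ^ (7 / 8 : ℝ)
          ≤ Real.exp (-(2 * ck κ * g j)) * Real.exp (2 * C * g j ^ (7 / 8 : ℝ)) *
              Real.exp (g j ^ (7 / 8 : ℝ)) := by
            refine mul_le_mul (mul_le_mul_of_nonneg_left h9 (by positivity)) h10 h8.le
              (by positivity)
        _ = Real.exp (-(c * g j) + (2 * C + 1) * g j ^ (7 / 8 : ℝ)) := by
            rw [← Real.exp_add, ← Real.exp_add, hc]
            congr 1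
            ring
        _ ≤ Real.exp ((2 * C + 1) * (ε⁻¹) ^ 7) := by
            refine Real.exp_le_exp.2 ?_
            have h11 := mul_le_mul_of_nonneg_left (young ε hε0 (g j) h7)
              (by positivity : (0 : ℝ) ≤ 2 * C + 1)
            have h12 : (2 * C + 1) * (ε * g j) = c * g j := by
              rw [hε]
              field_simp
            linarith
  · -- `lim`
    intro j
    exact (hlimS j).const_mul (2 * m j)
  · -- `limP`
    intro p
    obtain ⟨P, hP⟩ : ∃ P : ℂ[X], P = (p.comp (X ^ 2)).map (algebraMap ℝ ℂ) := ⟨_, rfl⟩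
    have hPe : ∀ j, P.eval ((Real.sqrt (g j) : ℝ) : ℂ) = ((p.eval (g j) : ℝ) : ℂ) := by
      intro j
      rw [hP]
      have h6 : (algebraMap ℝ ℂ) (Real.sqrt (g j)) = ((Real.sqrt (g j) : ℝ) : ℂ) := rfl
      rw [← h6, Polynomial.eval_map_algebraMap, Polynomial.aeval_algebraMap_apply]
      simp only [Polynomial.coe_aeval_eq_eval, Polynomial.eval_comp, Polynomial.eval_pow,
        Polynomial.eval_X, hsq j]
      rfl
    obtain ⟨-, -, h6⟩ := h3 n κ hκ hn (fun j => 2 * m j) (fun j => ((Real.sqrt (g j) : ℝ) : ℂ))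
      (fun j => by linarith [hmp j]) him hβsum P
    have h7 : ∀ a, ∑' b, ((2 * m b : ℝ) : ℂ) * (P.eval ((Real.sqrt (g b) : ℝ) : ℂ) *
        Sp a (n a) ((Real.sqrt (g b) : ℝ) : ℂ) ^ 2) =
        ((Lam g (fun j => 2 * m j * Sr a (n a) (Real.sqrt (g j)) ^ 2) p : ℝ) : ℂ) := by
      intro a
      unfold Lam
      rw [Complex.ofReal_tsum]
      refine tsum_congr fun b => ?_
      rw [hPe, (h1 a (n a)).2.2.2.1]
      push_cast
      ring
    have h8 : ∑' b, ((2 * m b : ℝ) : ℂ) * (P.eval ((Real.sqrt (g b) : ℝ) : ℂ) *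
        Complex.exp (-(2 * ck κ * ((Real.sqrt (g b) : ℝ) : ℂ) ^ 2))) =
        ((Lam g (fun j => 2 * m j * Real.exp (-(2 * ck κ * g j))) p : ℝ) : ℂ) := by
      unfold Lam
      rw [Complex.ofReal_tsum]
      refine tsum_congr fun b => ?_
      rw [hPe, ← Complex.ofReal_pow, hsq b]
      push_cast
      ring
    simp only [h7, h8] at h6
    exact (Complex.continuous_re.tendsto _).comp h6

end Pool.Agent.Q128.CD
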