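import Pool.Agent.H24R2.JP.Had

/-!
# The product of an entire function of order less than one with simple negative zeros
-/

set_option autoImplicit false

open Polynomial Filter Topology Finset

namespace Pool.Agent.Q128.CD

/-- a complex polynomial with simple roots among the numbers `-g j` -/
theorem poly_prod (Q : ℂ[X]) (g : ℕ → ℝ) (hg : StrictMono g) (hg0 : 0 < g 0) (h0 : Q.eval 0 = 1)
    (hr : ∀ b, Q.eval b = 0 → ∃ j, b = -(g j : ℂ)) (hs : ∀ b, ¬ (X - C b) ^ 2 ∣ Q) :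
    ∃ S : Finset ℕ, (∀ j, Q.eval (-(g j : ℂ)) = 0 → j ∈ S) ∧
      ∀ w, Q.eval w = ∏ j ∈ S, (1 + w / (g j : ℂ)) := by
  classical
  have hgp : ∀ j, 0 < g j := fun j => hg0.trans_le (hg.monotone (Nat.zero_le j))
  have hgc : ∀ j, (g j : ℂ) ≠ 0 := fun j => Complex.ofReal_ne_zero.2 (hgp j).ne'
  have hQ : Q ≠ 0 := by
    rintro rfl
    rw [eval_zero] at h0
    exact zero_ne_one h0
  have hinj : Function.Injective fun j : ℕ => -(g j : ℂ) := by
    intro i j hij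
    have h1 : (g i : ℂ) = (g j : ℂ) := neg_injective hij
    exact hg.injective (by exact_mod_cast h1)
  have hfin : {j : ℕ | Q.eval (-(g j : ℂ)) = 0}.Finite := by
    have h1 : ((Q.roots.toFinset : Set ℂ)).Finite := Finset.finite_toSet _
    refine (h1.preimage (f := fun j : ℕ => -(g j : ℂ)) hinj.injOn).subset ?_
    intro j hj
    rw [Set.mem_preimage, Finset.mem_coe, Multiset.mem_toFinset, mem_roots hQ]
    exact hj
  obtain ⟨S, hS⟩ : ∃ S : Finset ℕ, ∀ j, j ∈ S ↔ Q.eval (-(g j : ℂ)) = 0 :=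
    ⟨hfin.toFinset, fun j => by rw [Set.Finite.mem_toFinset]; rfl⟩
  refine ⟨S, fun j hj => (hS j).2 hj, ?_⟩
  have hdvd : ∏ j ∈ S, (X - C (-(g j : ℂ))) ∣ Q := by
    refine Finset.prod_dvd_of_coprime ?_ ?_
    · intro i _ j _ hij
      exact pairwise_coprime_X_sub_C hinj hij
    · intro j hj
      rw [dvd_iff_isRoot]
      exact (hS j).1 hj
  obtain ⟨T, hT⟩ := hdvd
  have hT0 : ∀ b, T.eval b ≠ 0 := by
    intro b hb
    have h1 : Q.eval b = 0 := by rw [hT, eval_mul, hb, mul_zero]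
    obtain ⟨j, rfl⟩ := hr b h1
    have hj : j ∈ S := (hS j).2 h1
    apply hs (-(g j : ℂ))
    obtain ⟨T', hT'⟩ := dvd_iff_isRoot.2 hb
    rw [hT, ← Finset.mul_prod_erase S _ hj, hT']
    exact ⟨(∏ x ∈ S.erase j, (X - C (-(g x : ℂ)))) * T', by ring⟩
  have hTd : T.degree = 0 := by
    by_contra hc
    obtain ⟨b, hb⟩ := IsAlgClosed.exists_root T hc
    exact hT0 b hb
  obtain ⟨t, ht⟩ : ∃ t, T = C t := ⟨_, eq_C_of_degree_eq_zero hTd⟩
  intro w
  have e1 : ∀ w, Q.eval w = (∏ j ∈ S, (w + (g j : ℂ))) * t := by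
    intro w
    rw [hT, eval_mul, eval_prod, ht, eval_C]
    congr 1
    refine Finset.prod_congr rfl fun j _ => ?_
    rw [eval_sub, eval_X, eval_C]
    ring
  have e2 : (∏ j ∈ S, (g j : ℂ)) * t = 1 := by
    rw [← h0, e1 0]
    simp
  have e3 : ∏ j ∈ S, (w + (g j : ℂ)) = (∏ j ∈ S, (1 + w / (g j : ℂ))) * ∏ j ∈ S, (g j : ℂ) := by
    rw [← Finset.prod_mul_distrib]
    refine Finset.prod_congr rfl fun j _ => ?_
    have := hgc j
    field_simp
    ring
  rw [e1, e3, mul_assoc, e2, mul_one]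

/-- **The product.** -/
theorem prodF (F : ℂ → ℂ) (K : ℝ) (hF : Differentiable ℂ F) (h0 : F 0 ≠ 0)
    (hsym : ∀ x, F ((starRingEnd ℂ) x) = (starRingEnd ℂ) (F x))
    (hb : ∀ x, ‖F x‖ ≤ Real.exp (K * (1 + ‖x‖) ^ (3 / 4 : ℝ)))
    (g : ℕ → ℝ) (hg : StrictMono g) (hg0 : 0 < g 0) (hz : ∀ x, F x = 0 → ∃ j, x = -(g j : ℂ))
    (hz' : ∀ j, F (-(g j : ℂ)) = 0) (hd : ∀ j, deriv F (-(g j : ℂ)) ≠ 0)
    (hsum : Summable fun j => 1 / g j) (w : ℂ) :
    F w = F 0 * ∏' j, (1 + w / (g j : ℂ)) := by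
  classical
  have hgp : ∀ j, 0 < g j := fun j => hg0.trans_le (hg.monotone (Nat.zero_le j))
  obtain ⟨K', hK'⟩ : ∃ K' : ℝ, K' = max K 0 := ⟨_, rfl⟩
  have hK0 : 0 ≤ K' := by rw [hK']; exact le_max_right _ _
  have hKK : K ≤ K' := by rw [hK']; exact le_max_left _ _
  have hbr : ∀ r : ℝ, ∀ w : ℂ, ‖w‖ ≤ r → ‖F w‖ ≤ Real.exp (K' * (1 + r) ^ (3/4 : ℝ)) := by
    intro r w hw
    refine (hb w).trans (Real.exp_le_exp.2 ?_)
    calc K * (1 + ‖w‖) ^ (3/4 : ℝ) ≤ K' * (1 + ‖w‖) ^ (3/4 : ℝ) :=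
          mul_le_mul_of_nonneg_right hKK (Real.rpow_nonneg (by linarith [norm_nonneg w]) _)
      _ ≤ K' * (1 + r) ^ (3/4 : ℝ) :=
          mul_le_mul_of_nonneg_left (Real.rpow_le_rpow (by linarith [norm_nonneg w])
            (by linarith) (by norm_num)) hK0
  obtain ⟨c, hc⟩ : ∃ c : ℝ, c = |Real.log ‖F 0‖| := ⟨_, rfl⟩
  have hc0 : 0 ≤ c := by rw [hc]; exact abs_nonneg _
  have main : ∀ N : ℕ, ∃ (S : Finset ℕ) (L : ℂ → ℂ), (∀ j, g j ≤ (N : ℝ) + 1 → j ∈ S) ∧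
      ∀ w : ℂ, ‖w‖ < (N : ℝ) + 1 →
        F w = (∏ j ∈ S, (1 + w / (g j : ℂ))) * (F 0 * Complex.exp (L w)) ∧
        ‖L w‖ ≤ 2 * (K' * (1 + 2 * ((N : ℝ) + 1)) ^ (3/4 : ℝ) + c) *
          (‖w‖ / (((N : ℝ) + 1) - ‖w‖)) := by
    intro N
    have hρ : 0 < (N : ℝ) + 1 := by positivity
    obtain ⟨n, hn⟩ := exists_nat_ge
      (∑ᶠ u, (MeromorphicOn.divisor F (Metric.closedBall 0 ((N : ℝ) + 1)) u : ℝ) * 1)
    obtain ⟨P, G, hG, hG0, hGb, hFG, hnz⟩ := Pool.Agent.H24R2.JP.had_split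
      (M := K' * (1 + 2 * ((N : ℝ) + 1)) ^ (3/4 : ℝ)) hρ n F hF h0 hsym
      (fun w hw => hbr _ w (by simpa using hw)) hn
    obtain ⟨L, hA, hL⟩ := Pool.Agent.H24R2.JP.had_base hG hρ
      (fun u hu => hnz u (Metric.ball_subset_closedBall hu))
      (fun w hw => hGb w (Metric.ball_subset_closedBall
        (Metric.ball_subset_ball (by linarith) hw)))
    obtain ⟨Q, hQ⟩ : ∃ Q : ℂ[X], Q = P.map (algebraMap ℝ ℂ) := ⟨_, rfl⟩
    have hQe : ∀ w, Q.eval w = aeval w P := fun w => by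
      rw [hQ, eval_map_algebraMap]
    have hQ0 : Q.eval 0 = 1 := by
      have h1 := hFG 0
      rw [hG0, ← hQe] at h1
      exact (mul_right_cancel₀ h0 (by rw [one_mul]; exact h1)).symm
    have hQs : ∀ b, ¬ (X - C b) ^ 2 ∣ Q := by
      rintro b ⟨T, hT⟩
      have hQb : Q.eval b = 0 := by
        rw [hT, eval_mul, eval_pow, eval_sub, eval_X, eval_C, sub_self]
        ring
      have hFb : F b = 0 := by rw [hFG, ← hQe, hQb, zero_mul]
      obtain ⟨j, rfl⟩ := hz b hFb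
      apply hd j
      have hFe : F = fun w => (w - -(g j : ℂ)) ^ 2 * (T.eval w * G w) := by
        funext w
        rw [hFG w, ← hQe, hT, eval_mul, eval_pow, eval_sub, eval_X, eval_C]
        ring
      have h2 : HasDerivAt (fun w : ℂ => (w - -(g j : ℂ)) ^ 2)
          (2 * (-(g j : ℂ) - -(g j : ℂ)) ^ 1 * 1) (-(g j : ℂ)) := by
        exact (((hasDerivAt_id (-(g j : ℂ))).sub_const (-(g j : ℂ))).pow 2).congr_deriv
          (by simp)
      have h3 : HasDerivAt (fun w : ℂ => T.eval w * G w)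
          (deriv (fun w : ℂ => T.eval w * G w) (-(g j : ℂ))) (-(g j : ℂ)) :=
        ((T.differentiable.mul hG) _).hasDerivAt
      have h4 := (h2.mul h3).deriv
      rw [hFe]
      refine h4.trans ?_
      simp
    obtain ⟨S, hS1, hS2⟩ := poly_prod Q g hg hg0 hQ0
      (fun b hb' => hz b (by rw [hFG, ← hQe, hb', zero_mul])) hQs
    refine ⟨S, L, fun j hj => hS1 j ?_, fun w hw => ?_⟩
    · have h1 := hz' j
      rw [hFG, ← hQe] at h1
      rcases mul_eq_zero.1 h1 with h2 | h2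
      · exact h2
      · exfalso
        refine hnz _ ?_ h2
        rw [Metric.mem_closedBall, dist_zero_right, norm_neg, Complex.norm_real,
          Real.norm_eq_abs, abs_of_pos (hgp j)]
        exact hj
    · obtain ⟨h1, h2⟩ := hL w hw
      constructor
      · rw [hFG w, h1, hG0, ← hQe, hS2]
      · refine h2.trans ?_
        refine mul_le_mul_of_nonneg_right ?_ (div_nonneg (norm_nonneg _) (by linarith))
        rw [hG0, hc]
        have := neg_abs_le (Real.log ‖F 0‖)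
        linarith
  choose S L hS hL using main
  have hmul : Multipliable fun j => (1 + w / (g j : ℂ)) := by
    refine multipliable_one_add_of_summable ?_
    refine (hsum.mul_left ‖w‖).congr fun j => ?_
    rw [norm_div, Complex.norm_real, Real.norm_eq_abs, abs_of_pos (hgp j)]
    ring
  have hST : Tendsto S atTop atTop := by
    rw [tendsto_atTop]
    intro B
    obtain ⟨b, hb'⟩ : ∃ b : ℝ, ∀ j ∈ B, g j ≤ b :=
      ⟨∑ j ∈ B, g j, fun j hj => Finset.single_le_sum (f := g) (fun i _ => (hgp i).le) hj⟩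
    filter_upwards [tendsto_natCast_atTop_atTop.eventually_ge_atTop b] with N hN
    intro j hj
    exact hS N j (by linarith [hb' j hj])
  have hlim1 : Tendsto (fun N => ∏ j ∈ S N, (1 + w / (g j : ℂ))) atTop
      (𝓝 (∏' j, (1 + w / (g j : ℂ)))) := hmul.hasProd.comp hST
  have hlim2 : Tendsto (fun N => L N w) atTop (𝓝 0) := by
    rw [Metric.tendsto_atTop']
    intro δ hδ
    have h1 := Pool.Agent.H24R2.JP.had_lim hK0 (show (0 : ℝ) < ‖w‖ + 1 by positivity) hc0 hδ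
    obtain ⟨N0, hN0⟩ := eventually_atTop.1 h1
    refine ⟨N0, fun N hN => ?_⟩
    obtain ⟨h2, h3⟩ := hN0 N hN.le
    rw [dist_zero_right]
    refine lt_of_le_of_lt ((hL N w (by linarith)).2) (lt_of_le_of_lt ?_ h3)
    have h4 : ‖w‖ / (((N : ℝ) + 1) - ‖w‖) ≤ (‖w‖ + 1) / (((N : ℝ) + 1) - (‖w‖ + 1)) :=
      div_le_div₀ (by positivity) (by linarith) (by linarith) (by linarith)
    exact mul_le_mul_of_nonneg_left h4 (by positivity)
  have hlim3 : Tendsto (fun N => (∏ j ∈ S N, (1 + w / (g j : ℂ))) *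
      (F 0 * Complex.exp (L N w))) atTop
      (𝓝 ((∏' j, (1 + w / (g j : ℂ))) * (F 0 * Complex.exp 0))) :=
    hlim1.mul (tendsto_const_nhds.mul ((Complex.continuous_exp.tendsto 0).comp hlim2))
  have hlim4 : Tendsto (fun N => (∏ j ∈ S N, (1 + w / (g j : ℂ))) *
      (F 0 * Complex.exp (L N w))) atTop (𝓝 (F w)) := by
    refine tendsto_const_nhds.congr' ?_
    filter_upwards [tendsto_natCast_atTop_atTop.eventually_ge_atTop ‖w‖] with N hN
    exact (hL N w (by linarith)).1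
  rw [tendsto_nhds_unique hlim4 hlim3, Complex.exp_zero, mul_one, mul_comm]

end Pool.Agent.Q128.CD
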