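import Pool.Agent.Q240.CD.Stm3
import Pool.Agent.Q128.CD.Had1
import Pool.Agent.H24R2.JP.Grow

/-!
# Project CD: the product of `ξ` if all zeros are simple and on the line
-/

set_option autoImplicit false

open Polynomial Filter Topology Finset MeasureTheory
open Pool.Agent.H24R2.JP (XX FF)

namespace Pool.Agent.Q128.CD

open Pool.Agent.Q240.CD

theorem deriv_ne_of_order {f : ℂ → ℂ} {z : ℂ} (hf : AnalyticAt ℂ f z) (h0 : f z = 0)
    (h1 : analyticOrderNatAt f z = 1) : deriv f z ≠ 0 := by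
  intro hd
  have h2 : analyticOrderAt f z = 1 := by
    unfold analyticOrderNatAt at h1
    have h3 : analyticOrderAt f z ≠ ⊤ := by
      intro h4
      rw [h4] at h1
      simp at h1
    rw [← ENat.natCast_toNat h3, h1]
    rfl
  have h3 := hf.analyticOrderAt_deriv_add_one
  have h4 : (fun x => f x - f z) = f := by
    funext x
    rw [h0, sub_zero]
  rw [h4, h2] at h3
  have h5 : analyticOrderAt (deriv f) z + 1 = 1 := h3
  have h6 : analyticOrderAt (deriv f) z = 0 := by
    have : analyticOrderAt (deriv f) z + 1 = 0 + 1 := by rw [h5, zero_add]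
    exact (ENat.add_left_injective_of_ne_top (by simp : (1 : ℕ∞) ≠ ⊤)) this
  rw [hf.deriv.analyticOrderAt_eq_zero] at h6
  exact h6 hd

theorem xiP : S_XiP := by
  intro γ hγ hγ0 hz hm hs z
  have hb1 := Pool.Agent.H24R2.JP.b1
  obtain ⟨K, hK⟩ := Pool.Agent.H24R2.JP.grow hb1
  obtain ⟨hFd, hFX, hFs, -⟩ := hb1
  have hγp : ∀ j, 0 < γ j := fun j => hγ0.trans_le (hγ.monotone (Nat.zero_le j))
  have hIsq : ∀ z : ℂ, (Complex.I * z) ^ 2 = -z ^ 2 := by
    intro z
    rw [mul_pow, Complex.I_sq]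
    ring
  have hg : StrictMono fun j => γ j ^ 2 := fun i j hij =>
    pow_lt_pow_left₀ (hγ hij) (hγp i).le (by norm_num)
  have hX0 : FF 0 ≠ 0 := by
    intro h
    have h1 : XX (Complex.I * 0) = 0 := by
      rw [mul_zero, ← hFX]
      simpa using h
    obtain ⟨j, hj⟩ := (hz 0).1 h1
    have h2 : (γ j : ℂ) ≠ 0 := Complex.ofReal_ne_zero.2 (hγp j).ne'
    rcases hj with hj | hj
    · exact h2 hj.symm
    · exact h2 (neg_eq_zero.1 hj.symm)
  have hzj : ∀ j, XX (Complex.I * (γ j : ℂ)) = 0 := fun j => (hz _).2 ⟨j, Or.inl rfl⟩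
  have h := prodF FF K hFd hX0 hFs hK (fun j => γ j ^ 2) hg (by positivity) ?_ ?_ ?_ hs (-z ^ 2)
  · rw [← hFX, hIsq, h]
    have h1 : XX 0 = FF 0 := by
      rw [← hFX]
      simp
    rw [h1]
    unfold GC
    congr 1
    refine tprod_congr fun j => ?_
    rw [neg_div, ← sub_eq_add_neg]
  · intro x hx
    obtain ⟨w, hw⟩ : ∃ w : ℂ, w ^ 2 = x := IsAlgClosed.exists_pow_nat_eq x (by norm_num)
    have h1 : Complex.I * (-Complex.I * w) = w := by
      rw [← mul_assoc, mul_neg, Complex.I_mul_I, neg_neg, one_mul]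
    have h2 : XX (Complex.I * (-Complex.I * w)) = 0 := by rw [h1, ← hFX, hw, hx]
    obtain ⟨j, hj⟩ := (hz _).1 h2
    refine ⟨j, ?_⟩
    have h3 : (-Complex.I * w) ^ 2 = (γ j : ℂ) ^ 2 := by
      rcases hj with hj | hj
      · rw [hj]
      · rw [hj]
        ring
    rw [mul_pow, neg_sq, Complex.I_sq, hw] at h3
    push_cast
    rw [← h3]
    ring
  · intro j
    have h1 := hFX (Complex.I * (γ j : ℂ))
    rw [hzj, hIsq] at h1
    push_cast
    exact h1
  · intro j hd
    have hre : (1 / 2 + Complex.I * (γ j : ℂ)).re = 1 / 2 := by simp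
    have h1 : Pool.Agent.Y23.mu (1 / 2 + Complex.I * (γ j : ℂ)) = 1 := hm j
    rw [Pool.Agent.Y23.mu_eq (by rw [hre]; norm_num) (by rw [hre]; norm_num)] at h1
    have h2 : (1 / 2 + Complex.I * (γ j : ℂ)) - 1 / 2 = Complex.I * (γ j : ℂ) := by ring
    rw [h2] at h1
    apply deriv_ne_of_order (Pool.Agent.Y23.XX_an _) (hzj j) h1
    have h3 : XX = fun w => FF (w ^ 2) := by
      funext w
      exact (hFX w).symm
    have h4 : HasDerivAt (fun w : ℂ => w ^ 2) (2 * (Complex.I * (γ j : ℂ)))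
        (Complex.I * (γ j : ℂ)) := by
      simpa using hasDerivAt_pow 2 (Complex.I * (γ j : ℂ))
    have h5 : HasDerivAt FF (deriv FF (-((γ j ^ 2 : ℝ) : ℂ))) ((Complex.I * (γ j : ℂ)) ^ 2) := by
      rw [hIsq]
      push_cast
      exact (hFd _).hasDerivAt
    have h6 := h5.comp (Complex.I * (γ j : ℂ)) h4
    rw [hd, zero_mul] at h6
    rw [h3]
    exact h6.deriv

end Pool.Agent.Q128.CD
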